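import Pool.Agent.helper25.PM.SpecO
import Pool.Agent.helper67.DH.MPC

/-!
# po:OPC, the good point near `0` for an obstacle structure
-/

set_option autoImplicit false

open Complex Metric Set Filter Topology MeasureTheory
open Pool.Agent.helper98.ILF
open WP (it)
open HY (UD T S hd UN RM)

noncomputable section

namespace PM

theorem OPC (hODI : ODI_stmt) (hOLG : OLG_stmt) (hGBL : GBL_stmt) (hMPA : DH.MPA_stmt) : OPC_stmt := by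
  intro D t₀ C θ hD ht₀ ht₀1 hC hθ0 hθ1
  obtain ⟨C', hC', hB⟩ := hGBL C θ hC hθ0 hθ1
  have hDp : 0 < D := by linarith
  obtain ⟨R₁, hR₁⟩ : ∃ R₁ : ℝ, R₁ = (1 + t₀) / 2 := ⟨_, rfl⟩
  obtain ⟨R₂, hR₂⟩ : ∃ R₂ : ℝ, R₂ = (1 + 3 * t₀) / 4 := ⟨_, rfl⟩
  have hR12 : R₂ < R₁ := by rw [hR₁, hR₂]; linarith
  have hR2t : t₀ < R₂ := by rw [hR₂]; linarith
  have hR2u : R₂ < 1 := by rw [hR₂]; linarith
  have hR1u : R₁ < 1 := by rw [hR₁]; linarith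
  have hR2p : 0 < R₂ := by linarith
  have hR1p : 0 < R₁ := by linarith
  have hR1h : 1 / 2 < R₁ := by rw [hR₁]; linarith
  obtain ⟨ell, hell⟩ : ∃ ell : ℝ, ell = Real.log (R₂ / t₀) := ⟨_, rfl⟩
  have hellp : 0 < ell := by
    rw [hell]
    exact Real.log_pos (by rw [lt_div_iff₀ ht₀]; linarith)
  obtain ⟨l2, hl2⟩ : ∃ l2 : ℝ, l2 = Real.log 2 := ⟨_, rfl⟩
  have hl2p : 0 < l2 := by rw [hl2]; exact Real.log_pos (by norm_num)
  have hl2a : 1 / 2 < l2 := by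
    rw [hl2]
    have := Real.log_two_gt_d9
    linarith
  have hexpl2 : Real.exp (-l2) = 1 / 2 := by
    rw [hl2, Real.exp_neg, Real.exp_log (by norm_num)]
    norm_num
  obtain ⟨β₀, hβ₀⟩ : ∃ β₀ : ℝ, β₀ = min (ell * l2 / (128 * D)) (l2 / (4 * D)) := ⟨_, rfl⟩
  have hβ₀p : 0 < β₀ := by rw [hβ₀]; exact lt_min (by positivity) (by positivity)
  have hβa : 16 * D * β₀ / l2 ≤ ell / 8 := by
    have h1 : β₀ ≤ ell * l2 / (128 * D) := by rw [hβ₀]; exact min_le_left _ _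
    rw [div_le_iff₀ hl2p]
    rw [le_div_iff₀ (by positivity)] at h1
    linarith
  have hβb : 2 * D * β₀ < l2 := by
    have h1 : β₀ ≤ l2 / (4 * D) := by rw [hβ₀]; exact min_le_right _ _
    rw [le_div_iff₀ (by positivity)] at h1
    linarith
  refine ⟨β₀, min (1 / 8) (R₂ / 2), hβ₀p, lt_min (by norm_num) (by positivity), min_le_left _ _, ?_⟩
  intro ε hε hε₁
  have hε8 : ε ≤ 1 / 8 := hε₁.trans (min_le_left _ _)
  have hεR : ε ≤ R₂ / 2 := hε₁.trans (min_le_right _ _)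
  obtain ⟨η, hη⟩ : ∃ η : ℝ, η = ε ^ 2 / 65536 := ⟨_, rfl⟩
  have hηp : 0 < η := by rw [hη]; positivity
  have hηε : η ≤ ε := by rw [hη]; nlinarith
  obtain ⟨L, hL⟩ : ∃ L : ℝ, L = Real.log (1 / ε) := ⟨_, rfl⟩
  have hL3 : 3 * l2 ≤ L := by
    rw [hL, hl2]
    have h1 : (3 : ℝ) * Real.log 2 = Real.log 8 := by
      have : (8 : ℝ) = 2 ^ 3 := by norm_num
      rw [this, Real.log_pow]
      norm_num
    rw [h1]
    refine Real.log_le_log (by norm_num) ?_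
    rw [le_div_iff₀ hε]
    linarith
  have hL1 : 1 ≤ L := by linarith
  have hLp : 0 < L := by linarith
  have hlogη : Real.log (1 / η) ≤ 8 * L := by
    have h1 : Real.log (1 / η) = 2 * L + 16 * l2 := by
      have h2 : (1 / η : ℝ) = (1 / ε) ^ 2 * 2 ^ 16 := by
        rw [hη]
        field_simp
        norm_num
      rw [h2, Real.log_mul (by positivity) (by positivity), Real.log_pow, Real.log_pow, hL, hl2]
      norm_num
    rw [h1]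
    linarith
  have hκ : 0 < min (1 / 4 : ℝ) (ell / (32 * L)) := lt_min (by norm_num) (by positivity)
  obtain ⟨u, hu0, hu1, hu2⟩ := DH.MPC_u (D * C') θ _ hθ1 hκ
  obtain ⟨N, hN1, hN2⟩ := DH.MPC_L (D * C') _ (by positivity) hκ
  have hu2a := lt_of_lt_of_le hu2 (min_le_left _ _)
  have hu2b := lt_of_lt_of_le hu2 (min_le_right _ _)
  have hN2a := lt_of_lt_of_le hN2 (min_le_left _ _)
  have hN2b := lt_of_lt_of_le hN2 (min_le_right _ _)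
  have hNp : (0 : ℝ) < (N : ℝ) := by exact_mod_cast hN1
  obtain ⟨a, ha⟩ : ∃ a : ℝ, a = (R₁ ^ 2 - R₂ ^ 2) / R₁ * Real.exp (-(1 + (N : ℝ))) := ⟨_, rfl⟩
  have hsq : 0 < R₁ ^ 2 - R₂ ^ 2 := by nlinarith
  have hap : 0 < a := by rw [ha]; positivity
  obtain ⟨A, hA⟩ : ∃ A : ℝ, A = (1 / a) ^ 2 := ⟨_, rfl⟩
  have hAp : 0 < A := by rw [hA]; positivity
  obtain ⟨X, hX⟩ : ∃ X : ℝ, X = 64 * A * L / ell + 1 := ⟨_, rfl⟩
  have hXp : 0 < X := by rw [hX]; positivity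
  have heX : Real.exp (-X) < 1 := by rw [Real.exp_lt_one_iff]; linarith
  have heX0 : 0 < Real.exp (-X) := Real.exp_pos _
  obtain ⟨ρ, hρ⟩ : ∃ ρ : ℝ, ρ = Real.sqrt (1 - Real.exp (-X)) := ⟨_, rfl⟩
  have hρ0 : 0 < ρ := by rw [hρ]; exact Real.sqrt_pos.2 (by linarith)
  have hρsq : ρ ^ 2 = 1 - Real.exp (-X) := by rw [hρ]; exact Real.sq_sqrt (by linarith)
  have hρ1 : ρ < 1 := by nlinarith
  refine ⟨ρ, hρ0, hρ1, ?_⟩
  intro α F ι β m v gg hOB hF0 hhalf hmD hcard hsmall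
  rw [← hL] at hsmall
  have h0UD : (0 : ℂ) ∈ UD := by rw [HY.UD]; exact mem_ball_self one_pos
  have hOIsub : ∀ (B : ℝ) (i : α), i ∈ OI ι v B → i ∈ ι := by
    intro B i hi
    exact (Finset.mem_filter.1 hi).1
  obtain ⟨g, hg⟩ : ∃ g : α → ℝ, g = fun i => 1 - ‖β i 0‖ := ⟨_, rfl⟩
  have hg01 : ∀ i ∈ OI ι v R₁, 0 ≤ g i ∧ g i ≤ 1 := by
    intro i hi
    rw [hg]
    have h1 := hOB.bbd i (hOIsub _ _ hi) 0 h0UD
    have h2 := norm_nonneg (β i 0)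
    exact ⟨by simp only []; linarith, by simp only []; linarith⟩
  have hsum : ∀ s : ℝ, 0 < s → s ≤ 1 →
      ∑ i ∈ (OI ι v R₁).filter (fun i => g i ≤ s), g i ≤ C' * s ^ (1 - θ) := by
    refine hB α (OI ι v R₁) g hg01 ?_
    intro s hs0 hs1
    have := hcard s hs0 hs1
    rw [← hR₁] at this
    rw [hg]
    exact this
  have hhalf' : ∀ i ∈ ι, 1 / 2 ≤ ‖β i 0‖ ∧ ‖β i 0‖ ≤ 1 ∧ (m i : ℝ) ≤ D := fun i hi =>
    ⟨hhalf i hi, hOB.bbd i hi 0 h0UD, hmD i hi⟩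
  -- the product P
  obtain ⟨P, hP⟩ : ∃ P : ℂ → ℂ, P = fun w => ∏ i ∈ OI ι v (2 * ε), β i w ^ m i := ⟨_, rfl⟩
  have hP0 : P 0 ≠ 0 ∧ -Real.log ‖P 0‖ ≤ 2 * D * β₀ / L := by
    have h1 := hOLG α (OI ι v (2 * ε)) (fun i => β i 0) m D (fun i hi => hhalf' i (hOIsub _ i hi))
    rw [hP]
    refine ⟨h1.1, h1.2.trans ?_⟩
    have h2 : 2 * D * ∑ i ∈ OI ι v (2 * ε), (1 - ‖β i 0‖) ≤ 2 * D * (β₀ / L) :=
      mul_le_mul_of_nonneg_left hsmall (by positivity)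
    refine h2.trans (le_of_eq ?_)
    ring
  have hPl2 : 2 * D * β₀ / L < l2 := by
    refine lt_of_le_of_lt ?_ hβb
    exact div_le_self (by positivity) hL1
  rcases le_or_gt ‖F 0‖ η with hcase | hcase
  · refine ⟨0, by rw [norm_zero]; exact hρ0.le, hcase.trans (le_of_eq hη), ?_⟩
    have h1 := DH.MPC_neglog ‖P 0‖ l2 _ (norm_pos_iff.2 hP0.1) hP0.2 hPl2
    rw [hexpl2, hP] at h1
    exact h1.le
  -- the main case
  by_contra hcon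
  push Not at hcon
  -- Q
  obtain ⟨I₁, hI₁⟩ : ∃ I₁ : Finset α, I₁ = (OI ι v R₁).filter (fun i => g i ≤ u) := ⟨_, rfl⟩
  obtain ⟨I₂, hI₂⟩ : ∃ I₂ : Finset α, I₂ = (OI ι v R₁).filter (fun i => ¬ g i ≤ u) := ⟨_, rfl⟩
  have hI₁t : ∀ i ∈ I₁, i ∈ ι := by
    intro i hi; rw [hI₁] at hi; exact hOIsub _ i (Finset.mem_filter.1 hi).1
  have hI₂t : ∀ i ∈ I₂, i ∈ ι := by
    intro i hi; rw [hI₂] at hi; exact hOIsub _ i (Finset.mem_filter.1 hi).1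
  obtain ⟨Q₁, hQ₁⟩ : ∃ Q₁ : ℂ → ℂ, Q₁ = fun w => ∏ i ∈ I₁, β i w ^ m i := ⟨_, rfl⟩
  obtain ⟨Q₂, hQ₂⟩ : ∃ Q₂ : ℂ → ℂ, Q₂ = fun w => ∏ i ∈ I₂, β i w ^ m i := ⟨_, rfl⟩
  obtain ⟨Q, hQ⟩ : ∃ Q : ℂ → ℂ, Q = fun w => Q₁ w ^ N * Q₂ w := ⟨_, rfl⟩
  have hprodle : ∀ (I : Finset α), (∀ i ∈ I, i ∈ ι) → ∀ w ∈ UD, ‖∏ i ∈ I, β i w ^ m i‖ ≤ 1 := by
    intro I hI w hw
    rw [norm_prod]
    refine Finset.prod_le_one (fun i _ => norm_nonneg _) (fun i hi => ?_)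
    rw [norm_pow]
    exact pow_le_one₀ (norm_nonneg _) (hOB.bbd i (hI i hi) w hw)
  have hproddiff : ∀ (I : Finset α), (∀ i ∈ I, i ∈ ι) → DifferentiableOn ℂ (fun w => ∏ i ∈ I, β i w ^ m i) UD := by
    intro I hI
    exact DifferentiableOn.fun_finsetProd (fun i hi => (hOB.bdif i (hI i hi)).pow (m i))
  have hQ₁le : ∀ w ∈ UD, ‖Q₁ w‖ ≤ 1 := by intro w hw; rw [hQ₁]; exact hprodle I₁ hI₁t w hw
  have hQ₂le : ∀ w ∈ UD, ‖Q₂ w‖ ≤ 1 := by intro w hw; rw [hQ₂]; exact hprodle I₂ hI₂t w hw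
  have hPle : ∀ w ∈ UD, ‖P w‖ ≤ 1 := by intro w hw; rw [hP]; exact hprodle _ (hOIsub _) w hw
  have hQn : ∀ w, ‖Q w‖ = ‖Q₁ w‖ ^ N * ‖Q₂ w‖ := by
    intro w; rw [hQ]; simp only [norm_mul, norm_pow]
  have hQle : ∀ w ∈ UD, ‖Q w‖ ≤ 1 := by
    intro w hw
    rw [hQn]
    exact mul_le_one₀ (pow_le_one₀ (norm_nonneg _) (hQ₁le w hw)) (norm_nonneg _) (hQ₂le w hw)
  have hPd : DifferentiableOn ℂ P UD := by rw [hP]; exact hproddiff _ (hOIsub _)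
  have hQd : DifferentiableOn ℂ Q UD := by
    rw [hQ]
    refine DifferentiableOn.mul (DifferentiableOn.pow ?_ N) ?_
    · rw [hQ₁]; exact hproddiff _ hI₁t
    · rw [hQ₂]; exact hproddiff _ hI₂t
  -- Q at 0
  have hQ₁0 : Q₁ 0 ≠ 0 ∧ -Real.log ‖Q₁ 0‖ ≤ 2 * (D * C' * u ^ (1 - θ)) := by
    have h1 := hOLG α I₁ (fun i => β i 0) m D (fun i hi => hhalf' i (hI₁t i hi))
    rw [hQ₁]
    refine ⟨h1.1, h1.2.trans ?_⟩
    have h3 := hsum u hu0 hu1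
    rw [← hI₁] at h3
    have h4 : ∑ i ∈ I₁, (1 - ‖β i 0‖) = ∑ i ∈ I₁, g i := by rw [hg]
    rw [h4]
    have h5 : 2 * D * ∑ i ∈ I₁, g i ≤ 2 * D * (C' * u ^ (1 - θ)) := mul_le_mul_of_nonneg_left h3 (by positivity)
    refine h5.trans (le_of_eq ?_)
    ring
  have hQ₂0 : Q₂ 0 ≠ 0 ∧ -Real.log ‖Q₂ 0‖ ≤ 2 * (D * C') := by
    have h1 := hOLG α I₂ (fun i => β i 0) m D (fun i hi => hhalf' i (hI₂t i hi))
    rw [hQ₂]
    refine ⟨h1.1, h1.2.trans ?_⟩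
    have h4 : ∑ i ∈ I₂, (1 - ‖β i 0‖) = ∑ i ∈ I₂, g i := by rw [hg]
    rw [h4]
    have h3 : ∑ i ∈ I₂, g i ≤ ∑ i ∈ (OI ι v R₁).filter (fun i => g i ≤ 1), g i := by
      refine Finset.sum_le_sum_of_subset_of_nonneg ?_ ?_
      · intro i hi
        rw [hI₂] at hi
        rw [Finset.mem_filter]
        exact ⟨(Finset.mem_filter.1 hi).1, (hg01 i (Finset.mem_filter.1 hi).1).2⟩
      · intro i hi _
        exact (hg01 i (Finset.mem_filter.1 hi).1).1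
    have h5 := hsum 1 one_pos le_rfl
    rw [Real.one_rpow, mul_one] at h5
    have h6 : 2 * D * ∑ i ∈ I₂, g i ≤ 2 * D * C' := mul_le_mul_of_nonneg_left (h3.trans h5) (by positivity)
    refine h6.trans (le_of_eq ?_)
    ring
  have hQ10p : 0 < ‖Q₁ 0‖ := norm_pos_iff.2 hQ₁0.1
  have hQ20p : 0 < ‖Q₂ 0‖ := norm_pos_iff.2 hQ₂0.1
  have hQ0p : 0 < ‖Q 0‖ := by rw [hQn]; positivity
  have hQlog : -Real.log ‖Q 0‖ ≤ N * (2 * (D * C' * u ^ (1 - θ))) + 2 * (D * C') := by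
    rw [hQn, Real.log_mul (by positivity) (by positivity), Real.log_pow]
    have h1 := hQ₁0.2
    have h2 := hQ₂0.2
    have h3 : (N : ℝ) * (-Real.log ‖Q₁ 0‖) ≤ N * (2 * (D * C' * u ^ (1 - θ))) := mul_le_mul_of_nonneg_left h1 hNp.le
    linarith
  have hQdiv : -Real.log ‖Q 0‖ / N ≤ 2 * (D * C' * u ^ (1 - θ)) + 2 * (D * C') / N := by
    rw [div_le_iff₀ hNp, add_mul, div_mul_cancel₀ _ hNp.ne']
    linarith
  have hQexp : Real.exp (-(N : ℝ)) < ‖Q 0‖ := by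
    refine DH.MPC_neglog _ _ (N * (1 / 2)) hQ0p ?_ (by linarith)
    have h1 : -Real.log ‖Q 0‖ / N ≤ 1 / 2 := by linarith
    rw [div_le_iff₀ hNp] at h1
    linarith
  -- H1
  have hH1 : ∀ w ∈ UD, ‖F w‖ ≤ R₂ → Real.exp (-(N : ℝ)) ≤ ‖Q w‖ →
      1 ≤ A * (‖deriv F w‖ * (1 - ‖w‖ ^ 2)) ^ 2 := by
    intro w hw hFw hQw
    have hDD := hODI α F ι β m v gg hOB R₁ hR1p hR1u.le w hw (lt_of_le_of_lt hFw hR12)
    rw [hQn] at hQw
    have q1 : ‖Q₁ w‖ ^ N ≤ 1 := pow_le_one₀ (norm_nonneg _) (hQ₁le w hw)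
    have q2 : Real.exp (-(N : ℝ)) ≤ ‖Q₂ w‖ := by
      refine hQw.trans ?_
      calc ‖Q₁ w‖ ^ N * ‖Q₂ w‖ ≤ 1 * ‖Q₂ w‖ := mul_le_mul_of_nonneg_right q1 (norm_nonneg _)
        _ = ‖Q₂ w‖ := one_mul _
    have q3 : Real.exp (-(1 : ℝ)) ^ N ≤ ‖Q₁ w‖ ^ N := by
      rw [← Real.exp_nat_mul]
      have e1 : (N : ℝ) * -(1 : ℝ) = -(N : ℝ) := by ring
      rw [e1]
      refine hQw.trans ?_
      calc ‖Q₁ w‖ ^ N * ‖Q₂ w‖ ≤ ‖Q₁ w‖ ^ N * 1 := mul_le_mul_of_nonneg_left (hQ₂le w hw) (by positivity)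
        _ = ‖Q₁ w‖ ^ N := mul_one _
    have q4 : Real.exp (-(1 : ℝ)) ≤ ‖Q₁ w‖ := le_of_pow_le_pow_left₀ (by omega) (norm_nonneg _) q3
    have q5 : ‖∏ i ∈ OI ι v R₁, β i w ^ m i‖ = ‖Q₁ w‖ * ‖Q₂ w‖ := by
      rw [hQ₁, hQ₂, hI₁, hI₂]
      simp only []
      rw [← norm_mul]
      congr 1
      exact (Finset.prod_filter_mul_prod_filter_not (OI ι v R₁) (fun i => g i ≤ u) _).symm
    have q6 : Real.exp (-(1 + (N : ℝ))) ≤ ‖Q₁ w‖ * ‖Q₂ w‖ := by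
      have e2 : -(1 + (N : ℝ)) = -(1 : ℝ) + -(N : ℝ) := by ring
      rw [e2, Real.exp_add]
      exact mul_le_mul q4 q2 (Real.exp_pos _).le (norm_nonneg _)
    rw [q5] at hDD
    have q7 : a ≤ ‖deriv F w‖ * (1 - ‖w‖ ^ 2) := by
      refine le_trans ?_ hDD
      rw [ha]
      have q8 : (R₁ ^ 2 - R₂ ^ 2) / R₁ ≤ (R₁ ^ 2 - ‖F w‖ ^ 2) / R₁ := by
        refine div_le_div_of_nonneg_right ?_ hR1p.le
        have := norm_nonneg (F w)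
        nlinarith
      have q10 : 0 ≤ (R₁ ^ 2 - ‖F w‖ ^ 2) / R₁ := le_trans (by positivity) q8
      exact mul_le_mul q8 q6 (Real.exp_pos _).le q10
    have q11 : a ^ 2 ≤ (‖deriv F w‖ * (1 - ‖w‖ ^ 2)) ^ 2 := pow_le_pow_left₀ hap.le q7 2
    have q12 : A * a ^ 2 = 1 := by rw [hA]; field_simp
    calc (1 : ℝ) = A * a ^ 2 := q12.symm
      _ ≤ _ := mul_le_mul_of_nonneg_left q11 hAp.le
  -- H2
  have hH2 : ∀ w ∈ UD, ‖w‖ ≤ ρ → ‖F w‖ = η → ‖P w‖ ≤ Real.exp (-l2) := by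
    intro w _ hwρ hFw
    rw [hP, hexpl2]
    exact (hcon w hwρ (hFw.le.trans (le_of_eq hη))).le
  have hηR : η < R₂ := by linarith
  have hfin := hMPA F P Q A ρ η R₂ l2 (N : ℝ) hOB.dif hPd hQd hOB.map hPle hQle hAp hρ0 hρ1 hηp
    hηR hR2u hl2p hNp hH1 hH2 hcase (lt_of_le_of_lt hF0 hR2t) hP0.1 hQexp
  -- the contradiction
  have hlogρ : Real.log (1 / (1 - ρ ^ 2)) = X := by
    rw [hρsq, sub_sub_cancel, one_div, ← Real.exp_neg, neg_neg, Real.log_exp]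
  rw [hlogρ] at hfin
  have hF0p : 0 < ‖F 0‖ := lt_trans hηp hcase
  have f1 : ell ≤ Real.log (R₂ / ‖F 0‖) := by
    rw [hell]
    refine Real.log_le_log (by positivity) ?_
    exact div_le_div_of_nonneg_left hR2p.le hF0p hF0
  have f2 : Real.log (R₂ / η) ≤ 8 * L := by
    refine le_trans ?_ hlogη
    refine Real.log_le_log (by positivity) ?_
    exact div_le_div_of_nonneg_right hR2u.le hηp.le
  have f3 : 0 ≤ Real.log (R₂ / η) := by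
    refine Real.log_nonneg ?_
    rw [le_div_iff₀ hηp]; linarith
  have f4 : -Real.log ‖P 0‖ / l2 ≤ 2 * D * β₀ / L / l2 := div_le_div_of_nonneg_right hP0.2 hl2p.le
  have hS0 : 0 ≤ 2 * D * β₀ / L / l2 + (2 * (D * C' * u ^ (1 - θ)) + 2 * (D * C') / N) + 2 * A / X := by positivity
  have f5 : Real.log (R₂ / ‖F 0‖) ≤
      8 * L * (2 * D * β₀ / L / l2 + (2 * (D * C' * u ^ (1 - θ)) + 2 * (D * C') / N) + 2 * A / X) := by
    refine hfin.trans ?_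
    calc Real.log (R₂ / η) * (-Real.log ‖P 0‖ / l2 + -Real.log ‖Q 0‖ / N + 2 * A / X)
        ≤ Real.log (R₂ / η) * (2 * D * β₀ / L / l2 + (2 * (D * C' * u ^ (1 - θ)) + 2 * (D * C') / N) + 2 * A / X) :=
          mul_le_mul_of_nonneg_left (by linarith) f3
      _ ≤ _ := mul_le_mul_of_nonneg_right f2 hS0
  have g1 : 8 * L * (2 * D * β₀ / L / l2) ≤ ell / 8 := by
    refine le_trans (le_of_eq ?_) hβa
    field_simp
    ring
  have g2 : 8 * L * (2 * (D * C' * u ^ (1 - θ))) < ell / 4 := by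
    have h1 := mul_lt_mul_of_pos_left hu2b (show (0 : ℝ) < 8 * L by positivity)
    have h2 : 8 * L * (ell / (32 * L)) = ell / 4 := by field_simp; norm_num
    rw [h2] at h1
    exact h1
  have g3 : 8 * L * (2 * (D * C') / N) < ell / 4 := by
    have h1 := mul_lt_mul_of_pos_left hN2b (show (0 : ℝ) < 8 * L by positivity)
    have h2 : 8 * L * (ell / (32 * L)) = ell / 4 := by field_simp; norm_num
    rw [h2] at h1
    exact h1
  have g4 : 8 * L * (2 * A / X) < ell / 4 := by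
    have h1 : 8 * L * (2 * A / X) = 16 * A * L / X := by ring
    rw [h1, div_lt_iff₀ hXp, hX]
    have h2 : ell / 4 * (64 * A * L / ell + 1) = 16 * A * L + ell / 4 := by field_simp; ring
    rw [h2]
    linarith
  have g5 : 8 * L * (2 * D * β₀ / L / l2 + (2 * (D * C' * u ^ (1 - θ)) + 2 * (D * C') / N) + 2 * A / X) =
      8 * L * (2 * D * β₀ / L / l2) + 8 * L * (2 * (D * C' * u ^ (1 - θ))) + 8 * L * (2 * (D * C') / N) +
        8 * L * (2 * A / X) := by ring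
  rw [g5] at f5
  linarith

end PM
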